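import Pool.Agent.P8H24.PR.Stm
import Pool.Agent.P8H75.PG.Vs

/-!
# Package RET of the project PR
-/

set_option autoImplicit false

open scoped commutatorElement

namespace Pool.Agent.P8H94.PR

open Pool.Agent.P8H24.PG Pool.Agent.P8H24.PR Pool.Agent.P8H75.PG

/-- there is a characteristic solvable subgroup of finite index -/
theorem exists_char_all {Γ : Type} [Group Γ]
    (h : ∃ H : Subgroup Γ, H.FiniteIndex ∧ Group.IsSolvable H) :
    ∃ C : Subgroup Γ, C.Characteristic ∧ C.FiniteIndex ∧ Group.IsSolvable C := by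
  classical
  let Q : ℕ → Prop := fun n => ∃ C : Subgroup Γ, C.Normal ∧ C.FiniteIndex ∧ Group.IsSolvable C ∧
    C.index = n
  have hQ : ∃ n, Q n := by
    obtain ⟨H, hH, hs⟩ := h
    refine ⟨H.normalCore.index, H.normalCore, inferInstance, inferInstance, ?_, rfl⟩
    exact Group.isSolvable_of_isSolvable_injective
      (Subgroup.inclusion_injective (Subgroup.normalCore_le H))
  obtain ⟨C, hCn, hCf, hCs, hCi⟩ := Nat.find_spec hQ
  have key : ∀ τ : Γ ≃* Γ, C.map τ.toMonoidHom ≤ C := by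
    intro τ
    set C' := C.map τ.toMonoidHom with hC'
    have hC'n : C'.Normal := hCn.map _ τ.surjective
    have hC's : Group.IsSolvable C' :=
      Group.isSolvable_of_surjective (τ.toMonoidHom.subgroupMap_surjective C)
    have hDs := solv_sup C C' hCs hC's
    have hle : C ≤ C ⊔ C' := le_sup_left
    have hDf : (C ⊔ C').FiniteIndex := Subgroup.finiteIndex_of_le hle
    have hDn : (C ⊔ C').Normal := Subgroup.sup_normal C C'
    have h1 : C.index ≤ (C ⊔ C').index := by
      rw [hCi]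
      exact Nat.find_min' hQ ⟨C ⊔ C', hDn, hDf, hDs, rfl⟩
    have h2 : (C ⊔ C').index ∣ C.index := Subgroup.index_dvd_of_le hle
    have h3 : C.relIndex (C ⊔ C') * (C ⊔ C').index = C.index := Subgroup.relIndex_mul_index hle
    have h4 : (C ⊔ C').index = C.index :=
      le_antisymm (Nat.le_of_dvd (Nat.pos_of_ne_zero hCf.index_ne_zero) h2) h1
    rw [h4] at h3
    have h5 : C.relIndex (C ⊔ C') = 1 := by
      have h6 : C.relIndex (C ⊔ C') * C.index = 1 * C.index := by rw [h3, one_mul]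
      exact Nat.eq_of_mul_eq_mul_right (Nat.pos_of_ne_zero hCf.index_ne_zero) h6
    rw [Subgroup.relIndex_eq_one] at h5
    exact le_sup_right.trans h5
  exact ⟨C, Subgroup.characteristic_iff_map_le.mpr key, hCf, hCs⟩

theorem chain_char {Γ : Type} [Group Γ] (C : Subgroup Γ) (hC : C.Characteristic) (i : ℕ) :
    (chain C i).Characteristic := by
  induction i with
  | zero => exact hC
  | succ i ih =>
    have := ih
    exact Subgroup.commutator_characteristic _ _

section Tor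

variable {G : Type} [Group G] (σ : MulAut G)

/-- the semidirect product with the integers -/
abbrev TT := G ⋊[zpowersHom (MulAut G) σ] Multiplicative ℤ

/-- the generator of the integers -/
def tt : TT σ := SemidirectProduct.inr (Multiplicative.ofAdd 1)

/-- the embedding of `G` -/
abbrev ii : G →* TT σ := SemidirectProduct.inl

theorem ii_inj : Function.Injective (ii σ) := SemidirectProduct.inl_injective

theorem tt_conj (n : ℕ) (x : G) : tt σ ^ n * ii σ x * (tt σ ^ n)⁻¹ = ii σ ((σ ^ n) x) := by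
  induction n generalizing x with
  | zero => simp
  | succ n ih =>
    have h2 : tt σ ^ (n + 1) * ii σ x * (tt σ ^ (n + 1))⁻¹ =
        tt σ * (tt σ ^ n * ii σ x * (tt σ ^ n)⁻¹) * (tt σ)⁻¹ := by
      rw [pow_succ']
      group
    rw [h2, ih, pow_succ' σ n, MulAut.mul_apply, tt]
    show _ * (SemidirectProduct.inl _ : TT σ) * _ = (SemidirectProduct.inl _ : TT σ)
    rw [← map_inv, ← SemidirectProduct.inl_aut, zpowersHom_apply, toAdd_ofAdd, zpow_one]

theorem dd_ii (n : ℕ) (x : G) : dd (tt σ ^ n) (ii σ x) = ii σ (df σ n x) := by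
  unfold dd df
  rw [tt_conj, map_mul, map_inv]

theorem dd_ii_iter (n k : ℕ) (x : G) :
    (dd (tt σ ^ n))^[k] (ii σ x) = ii σ ((df σ n)^[k] x) := by
  induction k generalizing x with
  | zero => rfl
  | succ k ih =>
    rw [Function.iterate_succ_apply, Function.iterate_succ_apply, dd_ii, ih]

end Tor

theorem ret : S_PAIR → S_RET := by
  intro hpair G _ σ m hm E hE hinv g hg hq hqg
  classical
  set t := tt σ with ht
  set a₀ : TT σ := t ^ m with ha₀
  set g₀ : TT σ := ii σ g with hg₀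
  set b₀ : TT σ := g₀⁻¹ * a₀ * g₀ with hb₀
  set E₀ : Subgroup (TT σ) := E.map (ii σ) with hE₀
  set S : Subgroup (TT σ) := Subgroup.normalizer (E₀ : Set (TT σ)) with hS
  have hES : E₀ ≤ S := Subgroup.le_normalizer
  have haS : a₀ ∈ S := by
    rw [hS, Subgroup.mem_normalizer_iff]
    intro x
    constructor
    · rintro ⟨y, hy, rfl⟩
      exact ⟨(σ ^ m) y, (hinv y).mpr hy, (tt_conj σ m y).symm⟩
    · rintro ⟨y, hy, hyx⟩
      refine ⟨(σ ^ m)⁻¹ y, ?_, ?_⟩
      · have h1 := (hinv ((σ ^ m)⁻¹ y)).mp (by rw [MulAut.apply_inv_self]; exact hy)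
        exact h1
      · have h1 := tt_conj σ m ((σ ^ m)⁻¹ y)
        rw [MulAut.apply_inv_self] at h1
        have h2 : a₀ * ii σ ((σ ^ m)⁻¹ y) * a₀⁻¹ = a₀ * x * a₀⁻¹ := h1.trans hyx
        exact mul_left_cancel (mul_right_cancel h2)
  have hba : b₀ * a₀⁻¹ = ii σ (g⁻¹ * (σ ^ m) g) := by
    rw [hb₀, map_mul, map_inv, ← tt_conj σ m g]
    show (ii σ g)⁻¹ * tt σ ^ m * ii σ g * (tt σ ^ m)⁻¹ =
      (ii σ g)⁻¹ * (tt σ ^ m * ii σ g * (tt σ ^ m)⁻¹)
    simp only [mul_assoc]
  have hbaE : b₀ * a₀⁻¹ ∈ E₀ := by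
    rw [hba]
    exact ⟨_, hg, rfl⟩
  have hbS : b₀ ∈ S := by
    have h1 := S.mul_mem (hES hbaE) haS
    rwa [inv_mul_cancel_right] at h1
  set E₁ : Subgroup S := E₀.subgroupOf S with hE₁
  have hE₁n : E₁.Normal := by
    rw [hE₁, hS]
    exact Subgroup.normal_in_normalizer
  -- virtual solvability
  have hvs : ∃ H : Subgroup E₁, H.FiniteIndex ∧ Group.IsSolvable H := by
    obtain ⟨H, hHE, hHi, hHs⟩ := hE
    let θ : E₁ ≃* E := (Subgroup.subgroupOfEquivOfLe hES).trans
      (E.equivMapOfInjective (ii σ) (ii_inj σ)).symm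
    refine ⟨(H.subgroupOf E).comap θ.toMonoidHom, ⟨?_⟩, ?_⟩
    · rw [Subgroup.index_comap_of_surjective _ θ.surjective]
      exact hHi
    · let f : ((H.subgroupOf E).comap θ.toMonoidHom) →* H :=
        { toFun := fun x => ⟨(θ x : G), x.2⟩
          map_one' := by
            apply Subtype.ext
            simp
          map_mul' := fun x y => by
            apply Subtype.ext
            show ((θ ((x : E₁) * (y : E₁)) : E) : G) = ((θ x : E) : G) * ((θ y : E) : G)
            rw [map_mul]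
            rfl }
      have hf : Function.Injective f := by
        intro x y hxy
        have h1 : ((θ x : E) : G) = ((θ y : E) : G) :=
          congrArg (Subtype.val : H → G) hxy
        exact Subtype.ext (θ.injective (Subtype.ext h1))
      exact Group.isSolvable_of_isSolvable_injective hf
  obtain ⟨C, hCc, hCf, hCs⟩ := exists_char_all hvs
  obtain ⟨l, hl⟩ := hCs.solvable
  have hNl : chain C l = ⊥ := by rw [chain_sub, hl, Subgroup.map_bot]
  -- the chain in S
  set N : ℕ → Subgroup S := fun i => (chain C i).map E₁.subtype with hN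
  have hNn : ∀ i, (N i).Normal := by
    intro i
    have := chain_char C hCc i
    exact inferInstance
  have hNE : ∀ i, N i ≤ E₁ := fun i => Subgroup.map_subtype_le _
  have hNc : ∀ i, ⁅N i, N i⁆ = N (i + 1) := by
    intro i
    show ⁅(chain C i).map E₁.subtype, (chain C i).map E₁.subtype⁆ =
      (⁅chain C i, chain C i⁆).map E₁.subtype
    rw [Subgroup.map_commutator]
  set a : S := ⟨a₀, haS⟩ with ha
  set b : S := ⟨b₀, hbS⟩ with hb
  -- both elements act locally quasi-unipotently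
  have key : ∀ (c : G) (y : S), (y : TT σ) = (ii σ c)⁻¹ * t ^ m * ii σ c →
      Lqu σ m (E.map (MulAut.conj c).toMonoidHom) → ∀ i : ℕ,
      ∀ x ∈ N i, ∃ m' : ℕ, 0 < m' ∧ ∃ k : ℕ, (dd (y ^ m'))^[k] x ∈ N (i + 1) := by
    intro c y hy hL i x hx
    set P : Subgroup (TT σ) := (N i).map S.subtype with hP
    have hPQ : (N (i + 1)).map S.subtype = ⁅P, P⁆ := by
      rw [← hNc, Subgroup.map_commutator]
    have hPE : P ≤ E₀ := by
      rintro _ ⟨z, hz, rfl⟩
      exact Subgroup.mem_subgroupOf.mp (hNE i hz)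
    have hPconj : ∀ z : TT σ, (y : TT σ) * z * (y : TT σ)⁻¹ ∈ P ↔ z ∈ P := by
      have h1 : ∀ (s : S) (z : TT σ), z ∈ P → (s : TT σ) * z * (s : TT σ)⁻¹ ∈ P := by
        rintro s _ ⟨z, hz, rfl⟩
        exact ⟨s * z * s⁻¹, (hNn i).conj_mem z hz s, by simp⟩
      intro z
      refine ⟨fun hz => ?_, fun hz => h1 y z hz⟩
      have h2 := h1 y⁻¹ _ hz
      have h3 : ((y⁻¹ : S) : TT σ) * ((y : TT σ) * z * (y : TT σ)⁻¹) * ((y⁻¹ : S) : TT σ)⁻¹ = z := by
        push_cast
        group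
      rwa [h3] at h2
    set K : Subgroup G := P.comap (ii σ) with hK
    set K' : Subgroup G := K.map (MulAut.conj c).toMonoidHom with hK'
    have hKE : K ≤ E := by
      intro z hz
      obtain ⟨w, hw, hwz⟩ := hPE hz
      rwa [← ii_inj σ hwz]
    have hK'mem : ∀ w : G, w ∈ K' ↔ (ii σ c)⁻¹ * ii σ w * ii σ c ∈ P := by
      intro w
      constructor
      · rintro ⟨z, hz, rfl⟩
        have h1 : (ii σ c)⁻¹ * ii σ ((MulAut.conj c).toMonoidHom z) * ii σ c = ii σ z := by
          show (ii σ c)⁻¹ * ii σ (c * z * c⁻¹) * ii σ c = ii σ z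
          rw [map_mul, map_mul, map_inv]
          group
        rw [h1]
        exact hz
      · intro hw
        refine ⟨c⁻¹ * w * c, ?_, ?_⟩
        · show ii σ (c⁻¹ * w * c) ∈ P
          rwa [map_mul, map_mul, map_inv]
        · show c * (c⁻¹ * w * c) * c⁻¹ = w
          group
    have hK'inv : ∀ w, (σ ^ m) w ∈ K' ↔ w ∈ K' := by
      intro w
      rw [hK'mem, hK'mem, ← hPconj ((ii σ c)⁻¹ * ii σ w * ii σ c), hy, ← tt_conj σ m w]
      have h1 : (ii σ c)⁻¹ * (tt σ ^ m * ii σ w * (tt σ ^ m)⁻¹) * ii σ c =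
          (ii σ c)⁻¹ * t ^ m * ii σ c * ((ii σ c)⁻¹ * ii σ w * ii σ c) *
            ((ii σ c)⁻¹ * t ^ m * ii σ c)⁻¹ := by
        rw [ht]
        group
      rw [h1]
    obtain ⟨z, hz, hzx⟩ := hPE (Subgroup.mem_map_of_mem S.subtype hx)
    have hzK : z ∈ K := by
      show ii σ z ∈ P
      rw [hzx]
      exact Subgroup.mem_map_of_mem S.subtype hx
    have hczK' : c * z * c⁻¹ ∈ K' := ⟨z, hzK, rfl⟩
    obtain ⟨m', hm', k, hk⟩ := hL K' (Subgroup.map_mono hKE) hK'inv _ hczK'
    refine ⟨m', hm', k, ?_⟩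
    have h1 : ii σ ((df σ (m * m'))^[k] (c * z * c⁻¹)) ∈ (⁅K', K'⁆).map (ii σ) :=
      Subgroup.mem_map_of_mem _ hk
    rw [← dd_ii_iter, ← ht, pow_mul] at h1
    have h2 : (⁅K', K'⁆).map (ii σ) ≤ (⁅P, P⁆).map (MulAut.conj (ii σ c)).toMonoidHom := by
      rw [Subgroup.map_commutator, Subgroup.map_commutator]
      have h3 : K'.map (ii σ) ≤ P.map (MulAut.conj (ii σ c)).toMonoidHom := by
        rintro _ ⟨w, hw, rfl⟩
        refine ⟨(ii σ c)⁻¹ * ii σ w * ii σ c, (hK'mem w).mp hw, ?_⟩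
        show ii σ c * ((ii σ c)⁻¹ * ii σ w * ii σ c) * (ii σ c)⁻¹ = ii σ w
        group
      exact Subgroup.commutator_mono h3 h3
    obtain ⟨v, hv, hve⟩ := h2 h1
    have h4 : (((dd (y ^ m'))^[k] x : S) : TT σ) = (dd (((y : TT σ)) ^ m'))^[k] (x : TT σ) := by
      have h5 := dd_map S.subtype (y ^ m') x k
      rw [map_pow] at h5
      exact h5
    have h6 : ((y : TT σ)) ^ m' = (ii σ c)⁻¹ * (t ^ m) ^ m' * ii σ c := by
      rw [hy]
      have h7 : (ii σ c)⁻¹ * t ^ m * ii σ c = (ii σ c)⁻¹ * t ^ m * ((ii σ c)⁻¹)⁻¹ := by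
        rw [inv_inv]
      rw [h7, conj_pow, inv_inv]
    have h8 := dd_conj_iter ((t ^ m) ^ m') (ii σ c) k (x : TT σ)
    rw [← h6, ← h4] at h8
    have h9 : ii σ c * (x : TT σ) * (ii σ c)⁻¹ = ii σ (c * z * c⁻¹) := by
      rw [map_mul, map_mul, map_inv, hzx]
      rfl
    rw [h9, ← hve] at h8
    have h10 : (((dd (y ^ m'))^[k] x : S) : TT σ) = v := by
      have h11 : ii σ c * (((dd (y ^ m'))^[k] x : S) : TT σ) * (ii σ c)⁻¹ =
          ii σ c * v * (ii σ c)⁻¹ := h8
      exact mul_left_cancel (mul_right_cancel h11)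
    have h12 : (((dd (y ^ m'))^[k] x : S) : TT σ) ∈ (N (i + 1)).map S.subtype := by
      rw [hPQ, h10]
      exact hv
    obtain ⟨u, hu, hue⟩ := h12
    have h13 : u = (dd (y ^ m'))^[k] x := Subtype.ext hue
    rwa [← h13]
  obtain ⟨n, hn, hnil⟩ := hpair S a b N l hNn
    (by
      show (chain C l).map E₁.subtype = ⊥
      rw [hNl, Subgroup.map_bot])
    (fun i => Subgroup.map_mono (Subgroup.commutator_le_self _))
    (fun i => (hNc i).le)
    (by
      have hmem : ∀ n : ℕ, b ^ n * (a ^ n)⁻¹ ∈ E₁ := by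
        intro n
        have h1 : (QuotientGroup.mk' E₁) b = (QuotientGroup.mk' E₁) a := by
          rw [← mul_inv_eq_one, ← map_inv, ← map_mul, QuotientGroup.mk'_apply,
            QuotientGroup.eq_one_iff]
          exact Subgroup.mem_subgroupOf.mpr hbaE
        have h2 : (QuotientGroup.mk' E₁) (b ^ n * (a ^ n)⁻¹) = 1 := by
          rw [map_mul, map_inv, map_pow, map_pow, h1, mul_inv_cancel]
        rwa [QuotientGroup.mk'_apply, QuotientGroup.eq_one_iff] at h2
      have key2 : ∀ i j : ℕ, i < j →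
          ((QuotientGroup.mk (⟨b ^ i * (a ^ i)⁻¹, hmem i⟩ : E₁) : E₁ ⧸ C) =
            QuotientGroup.mk (⟨b ^ j * (a ^ j)⁻¹, hmem j⟩ : E₁)) →
          ∃ n : ℕ, 0 < n ∧ (a ^ n)⁻¹ * b ^ n ∈ N 0 := by
        intro i j hij h
        refine ⟨j - i, by omega, ?_⟩
        rw [QuotientGroup.eq] at h
        have h1 : (b ^ i * (a ^ i)⁻¹)⁻¹ * (b ^ j * (a ^ j)⁻¹) ∈ N 0 := ⟨_, h, rfl⟩
        have h2 := (hNn 0).conj_mem _ h1 (a ^ i)⁻¹
        have h3 := (hNn 0).conj_mem _ h2 (a ^ (j - i))⁻¹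
        have h4 : (a ^ (j - i))⁻¹ * ((a ^ i)⁻¹ * ((b ^ i * (a ^ i)⁻¹)⁻¹ * (b ^ j * (a ^ j)⁻¹)) *
            ((a ^ i)⁻¹)⁻¹) * ((a ^ (j - i))⁻¹)⁻¹ = (a ^ (j - i))⁻¹ * b ^ (j - i) := by
          obtain ⟨d, rfl⟩ := Nat.exists_eq_add_of_lt hij
          have e1 : i + d + 1 - i = d + 1 := by omega
          rw [e1, show i + d + 1 = i + (d + 1) by ring, pow_add b, pow_add a]
          group
        rwa [h4] at h3
      obtain ⟨i, j, hij, h⟩ := Finite.exists_ne_map_eq_of_infinite
        (fun i : ℕ => (QuotientGroup.mk (⟨b ^ i * (a ^ i)⁻¹, hmem i⟩ : E₁) : E₁ ⧸ C))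
      rcases lt_or_gt_of_ne hij with h1 | h1
      · exact key2 i j h1 h
      · exact key2 j i h1 h.symm)
    (key 1 a (by rw [ha, map_one, inv_one, one_mul, mul_one]) (by
      have h1 : E.map (MulAut.conj (1 : G)).toMonoidHom = E := by
        rw [map_one]
        exact Subgroup.map_id E
      rw [h1]
      exact hq))
    (key g b rfl hqg)
  -- back to T
  have hnil2 := nil_map _ S.subtype hnil
  rw [MonoidHom.map_closure, Set.image_pair] at hnil2
  set A : TT σ := t ^ (m * n) with hA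
  have e1 : S.subtype (a ^ n) = A := by
    rw [map_pow, hA, pow_mul]
    rfl
  have e2 : S.subtype (b ^ n) = g₀⁻¹ * A * g₀ := by
    rw [map_pow]
    show b₀ ^ n = _
    have h7 : b₀ = g₀⁻¹ * a₀ * (g₀⁻¹)⁻¹ := by
      rw [inv_inv]
    rw [h7, conj_pow, inv_inv, hA, pow_mul]
  rw [e1, e2] at hnil2
  set W := Subgroup.closure {A, g₀⁻¹ * A * g₀} with hW
  have haW : A ∈ W := Subgroup.subset_closure (Set.mem_insert _ _)
  have h0 : dd A g₀ ∈ W := by
    have h1 : dd A g₀ = (g₀⁻¹ * A * g₀) * A⁻¹ := by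
      unfold dd
      group
    rw [h1]
    exact W.mul_mem (Subgroup.subset_closure (Set.mem_insert_of_mem _ rfl)) (W.inv_mem haW)
  have hlcs : ∀ i : ℕ, (dd A)^[i + 1] g₀ ∈ W.lowerCentralSeries i := by
    intro i
    induction i with
    | zero => exact h0
    | succ i ih =>
      rw [Function.iterate_succ_apply', Subgroup.lowerCentralSeries_succ]
      set z := (dd A)^[i + 1] g₀
      have h1 : dd A z = ⁅z⁻¹, A⁆ := by
        unfold dd
        rw [commutatorElement_def]
        group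
      rw [h1]
      exact Subgroup.commutator_mem_commutator (Subgroup.inv_mem _ ih) haW
  refine ⟨m * n, Nat.mul_pos hm hn, ?_, ?_⟩
  · obtain ⟨k, hk⟩ := (Subgroup.isNilpotent_iff_lowerCentralSeries W).mp hnil2
    have h1 := hlcs k
    rw [hk, Subgroup.mem_bot, hA, hg₀, ht, dd_ii_iter] at h1
    refine ⟨k + 1, ?_⟩
    apply ii_inj σ
    rw [h1, map_one]
  · apply nil_of_map _ (ii σ) (ii_inj σ)
    refine nil_mono ?_ hnil2
    rw [MonoidHom.map_closure, Subgroup.closure_le]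
    rintro _ ⟨x, ⟨i, rfl⟩, rfl⟩
    rw [← dd_ii_iter σ (m * n) (i + 1) g]
    have h1 := W.lowerCentralSeries_antitone (Nat.zero_le i) (hlcs i)
    rw [Subgroup.lowerCentralSeries_zero] at h1
    exact h1

end Pool.Agent.P8H94.PR
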